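import Pool.Agent.MP_f47e6d_an.Mg.Sym

/-!
A cycle of the Henon map `H (x, y) = (y, x + y^2)` other than the origin that lies in the ball of radius `ε` has
period larger than `1 / (2 ε)`.
-/

set_option autoImplicit false

namespace Pool.Agent.MP_f47e6d_an

lemma seq_bound {a : ℕ → ℂ} (ha : ∀ j, a (j + 2) = a j + a (j + 1) ^ 2) {n c : ℕ} (hn : 0 < n)
    (hp : a (c + 2 * n) = a c) (hM : ∀ j, ‖a j‖ ≤ ‖a (c + 1)‖) (h0 : a (c + 1) ≠ 0) :
    1 ≤ 2 * n * ‖a (c + 1)‖ := by
  set M := ‖a (c + 1)‖ with hMdef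
  have hMpos : 0 < M := norm_pos_iff.2 h0
  have tele : ∀ i, a (c + 2 * i) = a c + ∑ l ∈ Finset.range i, a (c + 2 * l + 1) ^ 2 := by
    intro i
    induction i with
    | zero => simp
    | succ i ih =>
      rw [Finset.sum_range_succ, ← add_assoc, ← ih, show c + 2 * (i + 1) = c + 2 * i + 2 by ring, ha]
  have near : ∀ l, ‖a (c + 2 * l + 1) - a (c + 1)‖ ≤ l * M ^ 2 := by
    intro l
    induction l with
    | zero => simp
    | succ l ih =>
      rw [show c + 2 * (l + 1) + 1 = c + 2 * l + 1 + 2 by ring, ha, add_sub_right_comm]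
      have h1 := norm_add_le (a (c + 2 * l + 1) - a (c + 1)) (a (c + 2 * l + 1 + 1) ^ 2)
      have h2 : ‖a (c + 2 * l + 1 + 1) ^ 2‖ ≤ M ^ 2 := by
        rw [norm_pow]
        exact pow_le_pow_left₀ (norm_nonneg _) (hM _) 2
      push_cast
      linarith
  have hs : ∑ l ∈ Finset.range n, a (c + 2 * l + 1) ^ 2 = 0 := by
    have := tele n
    rw [hp] at this
    linear_combination -this
  have e : (n : ℂ) * a (c + 1) ^ 2 = ∑ l ∈ Finset.range n, (a (c + 1) ^ 2 - a (c + 2 * l + 1) ^ 2) := by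
    rw [Finset.sum_sub_distrib, hs]
    simp
  have b : ∀ l ∈ Finset.range n, ‖a (c + 1) ^ 2 - a (c + 2 * l + 1) ^ 2‖ ≤ n * M ^ 2 * (2 * M) := by
    intro l hl
    have hl' : (l : ℝ) ≤ n := by exact_mod_cast (Finset.mem_range.1 hl).le
    rw [sq_sub_sq, norm_mul, mul_comm, norm_sub_rev]
    refine mul_le_mul ((near l).trans (by gcongr)) ?_ (norm_nonneg _) (by positivity)
    linarith [norm_add_le (a (c + 1)) (a (c + 2 * l + 1)), hM (c + 2 * l + 1)]
  have f := (norm_sum_le _ _).trans (Finset.sum_le_card_nsmul _ _ _ b)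
  rw [← e, norm_mul, norm_pow, Complex.norm_natCast, Finset.card_range, nsmul_eq_mul, ← hMdef] at f
  have hn' : (0 : ℝ) < n := by exact_mod_cast hn
  have g : n * M ^ 2 * 1 ≤ n * M ^ 2 * (2 * n * M) := by linarith
  exact le_of_mul_le_mul_left g (by positivity)

lemma period_bound {p : ℂ × ℂ} {n : ℕ} (hn : 0 < n) (hp : hen^[n] p = p) (h0 : p ≠ 0) {ε : ℝ}
    (hε : ∀ k, ‖hen^[k] p‖ < ε) : 1 < 2 * n * ε := by
  set a : ℕ → ℂ := fun j => (hen^[j] p).1 with hadef
  have h2 : ∀ j, (hen^[j] p).2 = a (j + 1) := fun j => by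
    simp only [hadef, Function.iterate_succ_apply', hen]
  have ha : ∀ j, a (j + 2) = a j + a (j + 1) ^ 2 := fun j => by
    rw [← h2 (j + 1), Function.iterate_succ_apply', ← h2 j]
    rfl
  have hper : Function.IsPeriodicPt hen n p := hp
  have hmod : ∀ j, a (j % n) = a j := fun j => by simp only [hadef, hper.iterate_mod_apply]
  obtain ⟨j0, -, hj0⟩ := Finset.exists_max_image (Finset.range n) (fun j => ‖a j‖) ⟨0, Finset.mem_range.2 hn⟩
  have e1 : a (j0 + n - 1 + 1) = a j0 := by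
    rw [show j0 + n - 1 + 1 = j0 + n by omega, ← hmod, Nat.add_mod_right, hmod]
  have hM : ∀ j, ‖a j‖ ≤ ‖a (j0 + n - 1 + 1)‖ := fun j => by
    rw [e1, ← hmod j]
    exact hj0 _ (Finset.mem_range.2 (Nat.mod_lt _ hn))
  have hne : a (j0 + n - 1 + 1) ≠ 0 := fun e => by
    have z : ∀ j, a j = 0 := fun j => norm_le_zero_iff.1 (by simpa [e] using hM j)
    exact h0 (Prod.ext (z 0) ((h2 0).trans (z 1)))
  have := seq_bound ha hn (c := j0 + n - 1) (by rw [← hmod, Nat.add_mul_mod_self_right, hmod]) hM hne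
  have h3 : ‖a (j0 + n - 1 + 1)‖ < ε := (norm_fst_le _).trans_lt (hε _)
  have hn' : (0 : ℝ) < n := by exact_mod_cast hn
  nlinarith

theorem long_small_cycles {ε : ℝ} (hε : 0 < ε) (N : ℕ) : ∃ p : ℂ × ℂ, ∃ n : ℕ, N < n ∧ hen^[n] p = p ∧
    (∀ j, 0 < j → j < n → hen^[j] p ≠ p) ∧ ∀ k : ℕ, ‖hen^[k] p‖ < ε ∧ hen^[k] p ≠ 0 := by
  obtain ⟨p, n, hn, hper, hall⟩ := small_cycles (ε := min ε (1 / (2 * (N + 1)))) (by positivity)
  have hper' : Function.IsPeriodicPt hen n p := hper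
  have hm := hper'.minimalPeriod_pos hn
  have hb := period_bound hm (Function.isPeriodicPt_minimalPeriod hen p) (hall 0).2
    fun k => (hall k).1.trans_le (min_le_right _ _)
  refine ⟨p, Function.minimalPeriod hen p, ?_, Function.isPeriodicPt_minimalPeriod hen p,
    fun j j0 j1 e => absurd (Function.IsPeriodicPt.minimalPeriod_le j0 e) (not_le.2 j1),
    fun k => ⟨(hall k).1.trans_le (min_le_left _ _), (hall k).2⟩⟩
  rw [mul_one_div, lt_div_iff₀ (by positivity)] at hb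
  have : (N : ℝ) < Function.minimalPeriod hen p := by linarith
  exact_mod_cast this

end Pool.Agent.MP_f47e6d_an
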