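import Mathlib

-- part MP_f47e6d_an.Dixon
section

/-!
Power series construction of the Dixon functions `S = sm`, `C = cm` on the disc of radius `5/4`:
`S' = C^2`, `C' = -S^2`, `S 0 = 0`, `C 0 = 1`, written as `S z = z * A (z^3)`, `C z = B (z^3)`.
-/

set_option autoImplicit false

namespace Pool.Agent.MP_f47e6d_an

open Finset

/-- Coefficients of `B`. -/
noncomputable def bco : ℕ → ℝ
  | 0 => 1
  | (m + 1) =>
      -(∑ i : Fin (m + 1),
          ((∑ k : Fin (i.val + 1), bco k.val * bco (i.val - k.val)) / (3 * (i.val : ℝ) + 1)) *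
          ((∑ k : Fin (m - i.val + 1), bco k.val * bco (m - i.val - k.val)) /
            (3 * ((m - i.val : ℕ) : ℝ) + 1))) / (3 * ((m : ℝ) + 1))
  decreasing_by
    all_goals
      have := i.2
      have := k.2
      omega

/-- Coefficients of `A`. -/
noncomputable def aco (m : ℕ) : ℝ :=
  (∑ k ∈ range (m + 1), bco k * bco (m - k)) / (3 * (m : ℝ) + 1)

lemma bco_zero : bco 0 = 1 := by rw [bco]

lemma bco_succ (m : ℕ) :
    bco (m + 1) = -(∑ i ∈ range (m + 1), aco i * aco (m - i)) / (3 * ((m : ℝ) + 1)) := by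
  rw [bco, ← Fin.sum_univ_eq_sum_range (fun i => aco i * aco (m - i))]
  congr 2
  refine Finset.sum_congr rfl fun i _ => ?_
  unfold aco
  rw [← Fin.sum_univ_eq_sum_range (fun k => bco k * bco (i.val - k)),
    ← Fin.sum_univ_eq_sum_range (fun k => bco k * bco (m - i.val - k))]

lemma conv_bound (f : ℕ → ℝ) (m : ℕ) (hf : ∀ k ≤ m, |f k| ≤ (1 / 3 : ℝ) ^ k) :
    |∑ k ∈ range (m + 1), f k * f (m - k)| ≤ ((m : ℝ) + 1) * (1 / 3 : ℝ) ^ m := by
  calc |∑ k ∈ range (m + 1), f k * f (m - k)| ≤ ∑ k ∈ range (m + 1), |f k * f (m - k)| :=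
        Finset.abs_sum_le_sum_abs _ _
    _ ≤ ∑ k ∈ range (m + 1), (1 / 3 : ℝ) ^ m := by
        refine Finset.sum_le_sum fun k hk => ?_
        have hk' : k ≤ m := by simpa [Nat.lt_succ_iff] using hk
        rw [abs_mul]
        calc |f k| * |f (m - k)| ≤ (1 / 3 : ℝ) ^ k * (1 / 3 : ℝ) ^ (m - k) :=
              mul_le_mul (hf k hk') (hf _ (Nat.sub_le _ _)) (abs_nonneg _) (by positivity)
          _ = (1 / 3 : ℝ) ^ m := by rw [← pow_add, Nat.add_sub_cancel' hk']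
    _ = ((m : ℝ) + 1) * (1 / 3 : ℝ) ^ m := by simp

lemma aco_bound_of (m : ℕ) (hb : ∀ k ≤ m, |bco k| ≤ (1 / 3 : ℝ) ^ k) :
    |aco m| ≤ (1 / 3 : ℝ) ^ m := by
  unfold aco
  have h := conv_bound bco m hb
  have hm : (0 : ℝ) ≤ m := Nat.cast_nonneg m
  rw [abs_div, abs_of_pos (by positivity : (0 : ℝ) < 3 * (m : ℝ) + 1), div_le_iff₀ (by positivity)]
  have hp : (0 : ℝ) < (1 / 3 : ℝ) ^ m := by positivity
  nlinarith

lemma bco_bound (m : ℕ) : |bco m| ≤ (1 / 3 : ℝ) ^ m := by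
  induction m using Nat.strong_induction_on with
  | _ m ih =>
    rcases m with _ | m
    · simp [bco_zero]
    · rw [bco_succ]
      have ha : ∀ k ≤ m, |aco k| ≤ (1 / 3 : ℝ) ^ k := fun k hk =>
        aco_bound_of k fun j hj => ih j (by omega)
      have h := conv_bound aco m ha
      have hm : (0 : ℝ) ≤ m := Nat.cast_nonneg m
      rw [abs_div, abs_neg, abs_of_pos (by positivity : (0 : ℝ) < 3 * ((m : ℝ) + 1)),
        div_le_iff₀ (by positivity), pow_succ]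
      have hp : (0 : ℝ) < (1 / 3 : ℝ) ^ m := by positivity
      nlinarith

lemma aco_bound (m : ℕ) : |aco m| ≤ (1 / 3 : ℝ) ^ m := aco_bound_of m fun k _ => bco_bound k

/-- The sum of a power series with real coefficients. -/
noncomputable def ps (f : ℕ → ℝ) (w : ℂ) : ℂ := ∑' m, (f m : ℂ) * w ^ m

section
variable {f : ℕ → ℝ} (hf : ∀ m, |f m| ≤ (1 / 3 : ℝ) ^ m)
include hf

lemma term_bound {w : ℂ} (hw : ‖w‖ ≤ 2) (m : ℕ) : ‖(f m : ℂ) * w ^ m‖ ≤ (2 / 3 : ℝ) ^ m := by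
  rw [norm_mul, norm_pow, Complex.norm_real, Real.norm_eq_abs]
  calc |f m| * ‖w‖ ^ m ≤ (1 / 3 : ℝ) ^ m * 2 ^ m :=
        mul_le_mul (hf m) (pow_le_pow_left₀ (norm_nonneg _) hw m) (by positivity) (by positivity)
    _ = (2 / 3 : ℝ) ^ m := by rw [← mul_pow]; norm_num

lemma summable_norm_term {w : ℂ} (hw : ‖w‖ ≤ 2) : Summable fun m => ‖(f m : ℂ) * w ^ m‖ :=
  Summable.of_nonneg_of_le (fun _ => norm_nonneg _) (term_bound hf hw)
    (summable_geometric_of_lt_one (by norm_num) (by norm_num))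

lemma ps_bound {w : ℂ} (hw : ‖w‖ ≤ 2) : ‖ps f w‖ ≤ 3 := by
  have h := tsum_of_norm_bounded (hasSum_geometric_of_lt_one (r := 2 / 3) (by norm_num) (by norm_num))
    (term_bound hf hw)
  unfold ps
  refine h.trans ?_
  norm_num

lemma dterm_bound {w : ℂ} (hw : ‖w‖ ≤ 2) (m : ℕ) :
    ‖(f m : ℂ) * ((m : ℂ) * w ^ (m - 1))‖ ≤ (m : ℝ) * (2 / 3 : ℝ) ^ m := by
  rcases m with _ | m
  · simp
  · rw [norm_mul, norm_mul, norm_pow, Complex.norm_real, Real.norm_eq_abs, Complex.norm_natCast,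
      Nat.add_sub_cancel]
    have h1 : ‖w‖ ^ m ≤ 2 ^ (m + 1) :=
      (pow_le_pow_left₀ (norm_nonneg _) hw m).trans
        (pow_le_pow_right₀ (by norm_num) (Nat.le_succ m))
    calc |f (m + 1)| * (((m + 1 : ℕ) : ℝ) * ‖w‖ ^ m)
        ≤ (1 / 3 : ℝ) ^ (m + 1) * (((m + 1 : ℕ) : ℝ) * 2 ^ (m + 1)) :=
          mul_le_mul (hf _) (mul_le_mul_of_nonneg_left h1 (by positivity)) (by positivity)
            (by positivity)
      _ = ((m + 1 : ℕ) : ℝ) * (2 / 3 : ℝ) ^ (m + 1) := by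
          rw [show (2 / 3 : ℝ) = 1 / 3 * 2 by norm_num, mul_pow]; ring

omit hf in
lemma summable_maj : Summable fun m : ℕ => (m : ℝ) * (2 / 3 : ℝ) ^ m := by
  have := summable_pow_mul_geometric_of_norm_lt_one (R := ℝ) 1 (r := 2 / 3)
    (by rw [Real.norm_eq_abs, abs_of_pos] <;> norm_num)
  simpa using this

lemma summable_dterm {w : ℂ} (hw : ‖w‖ ≤ 2) :
    Summable fun m => (f m : ℂ) * ((m : ℂ) * w ^ (m - 1)) :=
  Summable.of_norm_bounded summable_maj (dterm_bound hf hw)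

lemma hasDerivAt_ps {w : ℂ} (hw : ‖w‖ < 2) :
    HasDerivAt (ps f) (∑' m, (f m : ℂ) * ((m : ℂ) * w ^ (m - 1))) w := by
  refine hasDerivAt_tsum_of_isPreconnected (t := Metric.ball (0 : ℂ) 2) (y₀ := 0)
    (g := fun m z => (f m : ℂ) * z ^ m) (g' := fun m z => (f m : ℂ) * ((m : ℂ) * z ^ (m - 1)))
    summable_maj Metric.isOpen_ball (convex_ball _ _).isPreconnected ?_ ?_ ?_ ?_ ?_
  · intro n y _
    exact (hasDerivAt_pow n y).const_mul _
  · intro n y hy
    exact dterm_bound hf (le_of_lt (by simpa using hy)) n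
  · simp
  · exact (summable_norm_term hf (by simp)).of_norm
  · simpa using hw

lemma ps_sq {w : ℂ} (hw : ‖w‖ ≤ 2) :
    ps f w ^ 2 = ∑' m, ((∑ k ∈ range (m + 1), f k * f (m - k) : ℝ) : ℂ) * w ^ m := by
  unfold ps
  rw [sq, tsum_mul_tsum_eq_tsum_sum_range_of_summable_norm (summable_norm_term hf hw)
    (summable_norm_term hf hw)]
  refine tsum_congr fun m => ?_
  push_cast
  rw [Finset.sum_mul]
  refine Finset.sum_congr rfl fun k hk => ?_
  have hk' : k ≤ m := by simpa [Nat.lt_succ_iff] using hk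
  have : w ^ m = w ^ k * w ^ (m - k) := by rw [← pow_add, Nat.add_sub_cancel' hk']
  rw [this]; ring

omit hf in
lemma ps_im (x : ℝ) : (ps f (x : ℂ)).im = 0 := by
  unfold ps
  have : (∑' m, (f m : ℂ) * (x : ℂ) ^ m) = ((∑' m, f m * x ^ m : ℝ) : ℂ) := by
    rw [Complex.ofReal_tsum]
    refine tsum_congr fun m => ?_
    push_cast; ring
  rw [this, Complex.ofReal_im]

omit hf in
lemma ps_zero : ps f 0 = f 0 := by
  unfold ps
  rw [tsum_eq_single 0]
  · simp
  · intro m hm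
    simp [hm]

end

lemma A_ode {w : ℂ} (hw : ‖w‖ ≤ 2) :
    ps aco w + 3 * w * (∑' m, (aco m : ℂ) * ((m : ℂ) * w ^ (m - 1))) = ps bco w ^ 2 := by
  rw [ps_sq bco_bound hw, ← tsum_mul_left, ps,
    ← (summable_norm_term aco_bound hw).of_norm.tsum_add
      ((summable_dterm aco_bound hw).mul_left _)]
  refine tsum_congr fun m => ?_
  have h : (∑ k ∈ range (m + 1), bco k * bco (m - k) : ℝ) = (3 * (m : ℝ) + 1) * aco m := by
    unfold aco
    field_simp
  rw [h]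
  rcases m with _ | m
  · simp
  · rw [Nat.add_sub_cancel]; push_cast; ring

lemma B_ode {w : ℂ} (hw : ‖w‖ ≤ 2) :
    3 * (∑' m, (bco m : ℂ) * ((m : ℂ) * w ^ (m - 1))) = -(ps aco w ^ 2) := by
  rw [ps_sq aco_bound hw, (summable_dterm bco_bound hw).tsum_eq_zero_add, ← tsum_neg]
  simp only [Nat.cast_zero, zero_mul, mul_zero, zero_add]
  rw [← tsum_mul_left]
  refine tsum_congr fun m => ?_
  have h : (∑ k ∈ range (m + 1), aco k * aco (m - k) : ℝ) = -(3 * ((m : ℝ) + 1)) * bco (m + 1) := by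
    rw [bco_succ]
    field_simp
  rw [h, Nat.add_sub_cancel]
  push_cast; ring

/-- Dixon's `sm`. -/
noncomputable def sm (z : ℂ) : ℂ := z * ps aco (z ^ 3)

/-- Dixon's `cm`. -/
noncomputable def cm (z : ℂ) : ℂ := ps bco (z ^ 3)

lemma cube_lt {z : ℂ} (hz : ‖z‖ < 5 / 4) : ‖z ^ 3‖ < 2 := by
  rw [norm_pow]
  calc ‖z‖ ^ 3 ≤ (5 / 4 : ℝ) ^ 3 := pow_le_pow_left₀ (norm_nonneg _) hz.le 3
    _ < 2 := by norm_num

lemma hasDerivAt_sm {z : ℂ} (hz : ‖z‖ < 5 / 4) : HasDerivAt sm (cm z ^ 2) z := by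
  have h1 := (hasDerivAt_ps aco_bound (cube_lt hz)).comp z (hasDerivAt_pow 3 z)
  have h2 := (hasDerivAt_id z).mul h1
  have h3 := A_ode (cube_lt hz).le
  refine HasDerivAt.congr_deriv (f := sm) h2 ?_
  unfold cm
  rw [← h3]
  simp
  ring

lemma hasDerivAt_cm {z : ℂ} (hz : ‖z‖ < 5 / 4) : HasDerivAt cm (-(sm z ^ 2)) z := by
  have h1 := (hasDerivAt_ps bco_bound (cube_lt hz)).comp z (hasDerivAt_pow 3 z)
  have h3 := B_ode (cube_lt hz).le
  refine HasDerivAt.congr_deriv (f := cm) h1 ?_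
  unfold sm
  rw [mul_pow]
  simp only [Nat.cast_ofNat, Nat.add_one_sub_one]
  linear_combination (z ^ 2) * h3

lemma sm_bound {z : ℂ} (hz : ‖z‖ < 5 / 4) : ‖sm z‖ ≤ 4 := by
  unfold sm
  rw [norm_mul]
  have := ps_bound aco_bound (cube_lt hz).le
  nlinarith [norm_nonneg z, norm_nonneg (ps aco (z ^ 3))]

lemma cm_bound {z : ℂ} (hz : ‖z‖ < 5 / 4) : ‖cm z‖ ≤ 4 := by
  unfold cm
  have := ps_bound bco_bound (cube_lt hz).le
  linarith

lemma sm_rot {ω : ℂ} (hω : ω ^ 3 = 1) (z : ℂ) : sm (ω * z) = ω * sm z := by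
  unfold sm
  rw [mul_pow, hω, one_mul]; ring

lemma cm_rot {ω : ℂ} (hω : ω ^ 3 = 1) (z : ℂ) : cm (ω * z) = cm z := by
  unfold cm
  rw [mul_pow, hω, one_mul]

lemma sm_zero : sm 0 = 0 := by simp [sm]

lemma cm_zero : cm 0 = 1 := by simp [cm, ps_zero, bco_zero]

lemma cubes {z : ℂ} (hz : ‖z‖ < 5 / 4) : sm z ^ 3 + cm z ^ 3 = 1 := by
  have hd : ∀ y ∈ Metric.ball (0 : ℂ) (5 / 4),
      HasDerivAt (fun y => sm y ^ 3 + cm y ^ 3) 0 y := by
    intro y hy
    have hy' : ‖y‖ < 5 / 4 := by simpa using hy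
    have := ((hasDerivAt_sm hy').fun_pow 3).fun_add ((hasDerivAt_cm hy').fun_pow 3)
    refine this.congr_deriv ?_
    simp only [Nat.cast_ofNat, Nat.add_one_sub_one]
    ring
  have := (Metric.isOpen_ball (x := (0 : ℂ)) (ε := 5 / 4)).is_const_of_deriv_eq_zero
    (𝕜 := ℂ) (f := fun y => sm y ^ 3 + cm y ^ 3) (convex_ball _ _).isPreconnected
    (fun y hy => (hd y hy).differentiableAt.differentiableWithinAt)
    (fun y hy => (hd y hy).deriv) (x := z) (y := 0) (by simpa using hz) (by simp)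
  simpa [sm_zero, cm_zero] using this

lemma sm_im (x : ℝ) : (sm (x : ℂ)).im = 0 := by
  unfold sm
  have := ps_im (f := aco) (x ^ 3)
  push_cast at this
  simp [Complex.mul_im, this]

lemma cm_im (x : ℝ) : (cm (x : ℂ)).im = 0 := by
  unfold cm
  have := ps_im (f := bco) (x ^ 3)
  push_cast at this
  exact this

lemma sq_sum_ge {s c : ℝ} (h : s ^ 3 + c ^ 3 = 1) : 1 ≤ c ^ 2 + s ^ 2 := by
  by_contra hlt
  push Not at hlt
  have hs : s ≤ 1 := by nlinarith [sq_nonneg c, sq_nonneg (s - 1)]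
  have hc : c ≤ 1 := by nlinarith [sq_nonneg s, sq_nonneg (c - 1)]
  nlinarith [mul_nonneg (sq_nonneg s) (sub_nonneg.2 hs), mul_nonneg (sq_nonneg c) (sub_nonneg.2 hc)]

theorem exists_z0 : ∃ z0 : ℂ, ‖z0‖ ≤ 1 ∧ sm z0 = cm z0 := by
  set D : ℝ → ℝ := fun x => (sm x - cm x).re - x with hD
  have hder : ∀ x : ℝ, x ∈ Set.Icc (0 : ℝ) 1 →
      HasDerivAt D (((cm x).re ^ 2 + (sm x).re ^ 2) - 1) x := by
    intro x hx
    have hx' : ‖(x : ℂ)‖ < 5 / 4 := by
      rw [Complex.norm_real, Real.norm_eq_abs, abs_of_nonneg hx.1]; linarith [hx.2]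
    have h1 := ((hasDerivAt_sm hx').fun_sub (hasDerivAt_cm hx')).real_of_complex
    have h2 := h1.fun_sub (hasDerivAt_id' x)
    refine HasDerivAt.congr_deriv (f := D) h2 ?_
    simp [sq, Complex.mul_re, sm_im, cm_im]
  have hnn : ∀ x : ℝ, x ∈ Set.Icc (0 : ℝ) 1 → 0 ≤ ((cm x).re ^ 2 + (sm x).re ^ 2) - 1 := by
    intro x hx
    have hx' : ‖(x : ℂ)‖ < 5 / 4 := by
      rw [Complex.norm_real, Real.norm_eq_abs, abs_of_nonneg hx.1]; linarith [hx.2]
    have h := congrArg Complex.re (cubes hx')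
    have h' : (sm x).re ^ 3 + (cm x).re ^ 3 = 1 := by
      simpa [pow_succ, Complex.mul_re, Complex.mul_im, sm_im, cm_im] using h
    linarith [sq_sum_ge h']
  have hmono : MonotoneOn D (Set.Icc (0 : ℝ) 1) := by
    refine monotoneOn_of_hasDerivWithinAt_nonneg (convex_Icc 0 1)
      (f' := fun x => ((cm x).re ^ 2 + (sm x).re ^ 2) - 1) ?_ ?_ ?_
    · exact fun x hx => (hder x hx).continuousAt.continuousWithinAt
    · exact fun x hx => (hder x (interior_subset hx)).hasDerivWithinAt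
    · exact fun x hx => hnn x (interior_subset hx)
  have h01 := hmono (by simp : (0 : ℝ) ∈ Set.Icc (0 : ℝ) 1) (by simp : (1 : ℝ) ∈ Set.Icc (0 : ℝ) 1)
    zero_le_one
  have hcont : ContinuousOn (fun x : ℝ => D x + x) (Set.Icc (0 : ℝ) 1) :=
    fun x hx => ((hder x hx).continuousAt.add continuousAt_id).continuousWithinAt
  have h0 : D 0 = -1 := by simp [hD, sm_zero, cm_zero]
  obtain ⟨x, hx, hx0⟩ := intermediate_value_Icc zero_le_one hcont
    (show (0 : ℝ) ∈ Set.Icc (D 0 + 0) (D 1 + 1) from ⟨by linarith, by linarith⟩)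
  refine ⟨x, ?_, ?_⟩
  · rw [Complex.norm_real, Real.norm_eq_abs, abs_of_nonneg hx.1]; exact hx.2
  · apply Complex.ext
    · simp only [hD, Complex.sub_re] at hx0
      linarith
    · rw [sm_im, cm_im]

end Pool.Agent.MP_f47e6d_an

end

-- part MP_f47e6d_an.Euler
section

/-!
The second iterate of the Henon map, rescaled, is an Euler scheme for the Dixon system.
-/

set_option autoImplicit false

namespace Pool.Agent.MP_f47e6d_an

open Metric

/-- One step of the (symplectic) Euler scheme with complex step `h`. -/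
def step (h : ℂ) (q : ℂ × ℂ) : ℂ × ℂ := (q.1 + h * q.2 ^ 2, q.2 - h * (q.1 + h * q.2 ^ 2) ^ 2)

lemma mv {f f' : ℂ → ℂ} {s : Set ℂ} (hs : Convex ℝ s) {K : ℝ}
    (hf : ∀ x ∈ s, HasDerivAt f (f' x) x) (hK : ∀ x ∈ s, ‖f' x‖ ≤ K) {x y : ℂ} (hx : x ∈ s)
    (hy : y ∈ s) : ‖f y - f x‖ ≤ K * ‖y - x‖ :=
  hs.norm_image_sub_le_of_norm_hasDerivWithin_le (fun x hx => (hf x hx).hasDerivWithinAt) hK hx hy

lemma sq_bound {a : ℂ} (ha : ‖a‖ ≤ 4) : ‖a ^ 2‖ ≤ 16 := by
  rw [norm_pow]; nlinarith [norm_nonneg a]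

lemma sm_lip {z w : ℂ} (hz : ‖z‖ < 5 / 4) (hw : ‖w‖ < 5 / 4) : ‖sm w - sm z‖ ≤ 16 * ‖w - z‖ :=
  mv (convex_ball (0 : ℂ) (5 / 4)) (f' := fun x => cm x ^ 2)
    (fun x hx => hasDerivAt_sm (by simpa using hx))
    (fun x hx => sq_bound (cm_bound (by simpa using hx))) (by simpa using hz) (by simpa using hw)

lemma cm_lip {z w : ℂ} (hz : ‖z‖ < 5 / 4) (hw : ‖w‖ < 5 / 4) : ‖cm w - cm z‖ ≤ 16 * ‖w - z‖ :=
  mv (convex_ball (0 : ℂ) (5 / 4)) (f' := fun x => -(sm x ^ 2))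
    (fun x hx => hasDerivAt_cm (by simpa using hx))
    (fun x hx => by rw [norm_neg]; exact sq_bound (sm_bound (by simpa using hx)))
    (by simpa using hz) (by simpa using hw)

lemma sq_sub_bound {a b : ℂ} {e N : ℝ} (hab : ‖a - b‖ ≤ e) (hN : ‖a + b‖ ≤ N) :
    ‖a ^ 2 - b ^ 2‖ ≤ N * e := by
  rw [sq_sub_sq, norm_mul]
  exact mul_le_mul hN hab (norm_nonneg _) ((norm_nonneg _).trans hN)

lemma sm_taylor {z h : ℂ} (hz : ‖z‖ < 5 / 4) (hw : ‖z + h‖ < 5 / 4) :
    ‖sm (z + h) - sm z - h * cm z ^ 2‖ ≤ 128 * ‖h‖ ^ 2 := by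
  have key := mv ((convex_ball (0 : ℂ) (5 / 4)).inter (convex_closedBall z ‖h‖))
    (f := fun w => sm w - w * cm z ^ 2) (f' := fun w => cm w ^ 2 - cm z ^ 2) (K := 128 * ‖h‖)
    (x := z) (y := z + h) ?_ ?_ ⟨by simpa using hz, by simp⟩ ⟨by simpa using hw, by simp⟩
  · have e : sm (z + h) - (z + h) * cm z ^ 2 - (sm z - z * cm z ^ 2)
        = sm (z + h) - sm z - h * cm z ^ 2 := by ring
    rw [e, add_sub_cancel_left] at key
    nlinarith
  · intro x hx
    have hx1 : ‖x‖ < 5 / 4 := by simpa using hx.1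
    have := (hasDerivAt_sm hx1).fun_sub ((hasDerivAt_id' x).mul_const (cm z ^ 2))
    simpa using this
  · intro x hx
    have hx1 : ‖x‖ < 5 / 4 := by simpa using hx.1
    have hx2 : ‖x - z‖ ≤ ‖h‖ := by simpa [dist_eq_norm] using hx.2
    have h1 : ‖cm x - cm z‖ ≤ 16 * ‖h‖ := (cm_lip hz hx1).trans (by linarith)
    have h2 : ‖cm x + cm z‖ ≤ 8 :=
      (norm_add_le _ _).trans (by linarith [cm_bound hx1, cm_bound hz])
    have := sq_sub_bound h1 h2
    linarith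

lemma cm_taylor {z h : ℂ} (hz : ‖z‖ < 5 / 4) (hw : ‖z + h‖ < 5 / 4) :
    ‖cm (z + h) - cm z + h * sm z ^ 2‖ ≤ 128 * ‖h‖ ^ 2 := by
  have key := mv ((convex_ball (0 : ℂ) (5 / 4)).inter (convex_closedBall z ‖h‖))
    (f := fun w => cm w + w * sm z ^ 2) (f' := fun w => -(sm w ^ 2) + sm z ^ 2) (K := 128 * ‖h‖)
    (x := z) (y := z + h) ?_ ?_ ⟨by simpa using hz, by simp⟩ ⟨by simpa using hw, by simp⟩
  · have e : cm (z + h) + (z + h) * sm z ^ 2 - (cm z + z * sm z ^ 2)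
        = cm (z + h) - cm z + h * sm z ^ 2 := by ring
    rw [e, add_sub_cancel_left] at key
    nlinarith
  · intro x hx
    have hx1 : ‖x‖ < 5 / 4 := by simpa using hx.1
    have := (hasDerivAt_cm hx1).fun_add ((hasDerivAt_id' x).mul_const (sm z ^ 2))
    simpa using this
  · intro x hx
    have hx1 : ‖x‖ < 5 / 4 := by simpa using hx.1
    have hx2 : ‖x - z‖ ≤ ‖h‖ := by simpa [dist_eq_norm] using hx.2
    have h1 : ‖sm z - sm x‖ ≤ 16 * ‖h‖ := by
      rw [norm_sub_rev]; exact (sm_lip hz hx1).trans (by linarith)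
    have h2 : ‖sm z + sm x‖ ≤ 8 :=
      (norm_add_le _ _).trans (by linarith [sm_bound hx1, sm_bound hz])
    have := sq_sub_bound h1 h2
    rw [neg_add_eq_sub]
    linarith

/-- One step of the error recursion. -/
lemma step_err {z h : ℂ} (hz : ‖z‖ < 5 / 4) (hw : ‖z + h‖ < 5 / 4) (hh : ‖h‖ ≤ 1)
    {q : ℂ × ℂ} {e : ℝ} (he : e ≤ 1) (h1 : ‖q.1 - sm z‖ ≤ e) (h2 : ‖q.2 - cm z‖ ≤ e) :
    ‖(step h q).1 - sm (z + h)‖ ≤ (1 + 34 * ‖h‖) * e + 1000 * ‖h‖ ^ 2 ∧
    ‖(step h q).2 - cm (z + h)‖ ≤ (1 + 34 * ‖h‖) * e + 1000 * ‖h‖ ^ 2 := by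
  have he0 : 0 ≤ e := (norm_nonneg _).trans h1
  have hh0 : 0 ≤ ‖h‖ := norm_nonneg _
  have hS := sm_bound hz
  have hC := cm_bound hz
  have hq1 : ‖q.1‖ ≤ 5 := by
    have := norm_add_le (q.1 - sm z) (sm z)
    rw [sub_add_cancel] at this; linarith
  have hq2 : ‖q.2‖ ≤ 5 := by
    have := norm_add_le (q.2 - cm z) (cm z)
    rw [sub_add_cancel] at this; linarith
  have hq2s : ‖h * q.2 ^ 2‖ ≤ 25 * ‖h‖ := by
    rw [norm_mul, norm_pow]
    have : ‖q.2‖ ^ 2 ≤ 25 := by nlinarith [norm_nonneg q.2]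
    nlinarith
  constructor
  · have e1 : (step h q).1 - sm (z + h) = (q.1 - sm z) + h * (q.2 ^ 2 - cm z ^ 2)
        - (sm (z + h) - sm z - h * cm z ^ 2) := by simp only [step]; ring
    have b1 : ‖q.2 ^ 2 - cm z ^ 2‖ ≤ 9 * e :=
      sq_sub_bound h2 ((norm_add_le _ _).trans (by linarith))
    have b2 : ‖h * (q.2 ^ 2 - cm z ^ 2)‖ ≤ ‖h‖ * (9 * e) := by
      rw [norm_mul]; exact mul_le_mul_of_nonneg_left b1 hh0
    have b3 := sm_taylor hz hw
    rw [e1]
    have := norm_sub_le ((q.1 - sm z) + h * (q.2 ^ 2 - cm z ^ 2)) (sm (z + h) - sm z - h * cm z ^ 2)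
    have := norm_add_le (q.1 - sm z) (h * (q.2 ^ 2 - cm z ^ 2))
    nlinarith [mul_nonneg hh0 he0, sq_nonneg ‖h‖]
  · have e1 : (step h q).2 - cm (z + h) = (q.2 - cm z)
        - h * ((q.1 + h * q.2 ^ 2) ^ 2 - sm z ^ 2)
        - (cm (z + h) - cm z + h * sm z ^ 2) := by simp only [step]; ring
    have a1 : ‖q.1 + h * q.2 ^ 2 - sm z‖ ≤ e + 25 * ‖h‖ := by
      have := norm_add_le (q.1 - sm z) (h * q.2 ^ 2)
      rw [show q.1 + h * q.2 ^ 2 - sm z = q.1 - sm z + h * q.2 ^ 2 by ring]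
      linarith
    have a2 : ‖q.1 + h * q.2 ^ 2 + sm z‖ ≤ 34 := by
      have := norm_add_le (q.1 + h * q.2 ^ 2) (sm z)
      have := norm_add_le q.1 (h * q.2 ^ 2)
      linarith
    have b1 := sq_sub_bound a1 a2
    have b2 : ‖h * ((q.1 + h * q.2 ^ 2) ^ 2 - sm z ^ 2)‖ ≤ ‖h‖ * (34 * (e + 25 * ‖h‖)) := by
      rw [norm_mul]; exact mul_le_mul_of_nonneg_left b1 hh0
    have b3 := cm_taylor hz hw
    rw [e1]
    have := norm_sub_le ((q.2 - cm z) - h * ((q.1 + h * q.2 ^ 2) ^ 2 - sm z ^ 2))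
      (cm (z + h) - cm z + h * sm z ^ 2)
    have := norm_sub_le (q.2 - cm z) (h * ((q.1 + h * q.2 ^ 2) ^ 2 - sm z ^ 2))
    nlinarith [mul_nonneg hh0 he0, sq_nonneg ‖h‖]

/-- Convergence of the Euler scheme along a segment. -/
lemma euler_err {z0 h : ℂ} {k : ℕ} (hseg : ∀ j ≤ k, ‖z0 + j * h‖ < 5 / 4) (hh : ‖h‖ ≤ 1)
    (hk : (k : ℝ) * ‖h‖ ≤ 3) (hsmall : 3000 * Real.exp 102 * ‖h‖ ≤ 1) :
    ∀ j ≤ k, ‖((step h)^[j] (sm z0, cm z0)).1 - sm (z0 + j * h)‖ ≤ 3000 * Real.exp 102 * ‖h‖ ∧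
      ‖((step h)^[j] (sm z0, cm z0)).2 - cm (z0 + j * h)‖ ≤ 3000 * Real.exp 102 * ‖h‖ := by
  have hh0 : 0 ≤ ‖h‖ := norm_nonneg _
  have hbound : ∀ j ≤ k, 1000 * ‖h‖ ^ 2 * j * (1 + 34 * ‖h‖) ^ j ≤ 3000 * Real.exp 102 * ‖h‖ := by
    intro j hj
    have hj' : (j : ℝ) * ‖h‖ ≤ 3 :=
      (mul_le_mul_of_nonneg_right (Nat.cast_le.2 hj) hh0).trans hk
    have h1 : (1 + 34 * ‖h‖) ^ j ≤ Real.exp 102 := by
      calc (1 + 34 * ‖h‖) ^ j ≤ (Real.exp (34 * ‖h‖)) ^ j :=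
            pow_le_pow_left₀ (by positivity) (by linarith [Real.add_one_le_exp (34 * ‖h‖)]) j
        _ = Real.exp (j * (34 * ‖h‖)) := by rw [Real.exp_nat_mul]
        _ ≤ Real.exp 102 := Real.exp_le_exp.2 (by linarith)
    have h2 : 1000 * ‖h‖ ^ 2 * j ≤ 3000 * ‖h‖ := by nlinarith
    calc 1000 * ‖h‖ ^ 2 * j * (1 + 34 * ‖h‖) ^ j ≤ (3000 * ‖h‖) * Real.exp 102 :=
          mul_le_mul h2 h1 (by positivity) (by positivity)
      _ = _ := by ring
  have main : ∀ j ≤ k,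
      ‖((step h)^[j] (sm z0, cm z0)).1 - sm (z0 + j * h)‖
        ≤ 1000 * ‖h‖ ^ 2 * j * (1 + 34 * ‖h‖) ^ j ∧
      ‖((step h)^[j] (sm z0, cm z0)).2 - cm (z0 + j * h)‖
        ≤ 1000 * ‖h‖ ^ 2 * j * (1 + 34 * ‖h‖) ^ j := by
    intro j
    induction j with
    | zero => intro _; simp
    | succ j ih =>
      intro hj
      have ih' := ih (by omega)
      have hw : ‖z0 + j * h + h‖ < 5 / 4 := by
        have := hseg (j + 1) hj
        push_cast at this
        rwa [show z0 + j * h + h = z0 + (j + 1) * h by ring]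
      have hs := step_err (hseg j (by omega)) hw hh ((hbound j (by omega)).trans hsmall) ih'.1 ih'.2
      rw [Function.iterate_succ_apply']
      have e1 : z0 + ((j + 1 : ℕ) : ℂ) * h = z0 + j * h + h := by push_cast; ring
      rw [e1]
      have hp : 1 ≤ (1 + 34 * ‖h‖) ^ (j + 1) := one_le_pow₀ (by linarith)
      have hle : (1 + 34 * ‖h‖) * (1000 * ‖h‖ ^ 2 * j * (1 + 34 * ‖h‖) ^ j) + 1000 * ‖h‖ ^ 2
          ≤ 1000 * ‖h‖ ^ 2 * ((j + 1 : ℕ) : ℝ) * (1 + 34 * ‖h‖) ^ (j + 1) := by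
        have : 1000 * ‖h‖ ^ 2 * 1 ≤ 1000 * ‖h‖ ^ 2 * (1 + 34 * ‖h‖) ^ (j + 1) :=
          mul_le_mul_of_nonneg_left hp (by positivity)
        push_cast
        rw [pow_succ (1 + 34 * ‖h‖) j] at this ⊢
        nlinarith
      exact ⟨hs.1.trans hle, hs.2.trans hle⟩
  intro j hj
  exact ⟨(main j hj).1.trans (hbound j hj), (main j hj).2.trans (hbound j hj)⟩

lemma diff_iter (q : ℂ × ℂ) (j : ℕ) :
    Differentiable ℂ (fun h => ((step h)^[j] q).1) ∧
      Differentiable ℂ (fun h => ((step h)^[j] q).2) := by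
  induction j with
  | zero => simp
  | succ j ih =>
    obtain ⟨h1, h2⟩ := ih
    simp only [Function.iterate_succ_apply']
    constructor
    · exact h1.fun_add (differentiable_id.fun_mul (h2.fun_pow 2))
    · exact h2.fun_sub (differentiable_id.fun_mul
        ((h1.fun_add (differentiable_id.fun_mul (h2.fun_pow 2))).fun_pow 2))

/-- Minimum modulus principle. -/
lemma exists_zero {f : ℂ → ℂ} (hf : Differentiable ℂ f) {c : ℂ} {δ m : ℝ} (hδ : 0 < δ)
    (hb : ∀ z, ‖z - c‖ = δ → m ≤ ‖f z‖) (hc : ‖f c‖ < m) : ∃ z, ‖z - c‖ ≤ δ ∧ f z = 0 := by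
  by_contra hne
  push Not at hne
  have hm : 0 < m := (norm_nonneg _).trans_lt hc
  have hd : DiffContOnCl ℂ (fun z => (f z)⁻¹) (ball c δ) := by
    refine DifferentiableOn.diffContOnCl ?_
    rw [closure_ball c hδ.ne']
    intro z hz
    exact ((hf z).fun_inv (hne z (by simpa [dist_eq_norm] using hz))).differentiableWithinAt
  have h := Complex.norm_le_of_forall_mem_frontier_norm_le (isBounded_ball) hd (C := m⁻¹) (z := c)
    ?_ (subset_closure (mem_ball_self hδ))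
  · have hc0 : 0 < ‖f c‖ := norm_pos_iff.2 (hne c (by simp [hδ.le]))
    rw [norm_inv, inv_le_inv₀ hc0 hm] at h
    linarith
  · intro z hz
    rw [frontier_ball c hδ.ne'] at hz
    have := hb z (by simpa [dist_eq_norm] using hz)
    rw [norm_inv]
    exact inv_anti₀ hm this

/-- The shooting result: for every `ε` there are a step `h`, `0 < |h| ≤ ε`, and a number of steps
`k > 0`, such that the Euler orbit of `(s, s)` stays bounded by `5` and ends on the line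
`b = ω² a`. -/
theorem shoot {ω : ℂ} (hω : ω ^ 3 = 1) (hω1 : ω ≠ 1) {ε : ℝ} (hε : 0 < ε) :
    ∃ (s h : ℂ) (k : ℕ), s ≠ 0 ∧ h ≠ 0 ∧ ‖h‖ ≤ ε ∧ 0 < k ∧
      (∀ j ≤ k, ‖((step h)^[j] (s, s)).1‖ ≤ 5 ∧ ‖((step h)^[j] (s, s)).2‖ ≤ 5) ∧
      ((step h)^[k] (s, s)).2 = ω ^ 2 * ((step h)^[k] (s, s)).1 := by
  obtain ⟨z0, hz0, hsc⟩ := exists_z0
  have hωn : ‖ω‖ = 1 := by
    have := congrArg norm hω
    rw [norm_pow, norm_one] at this
    exact (pow_eq_one_iff_of_nonneg (norm_nonneg _) (by norm_num)).1 this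
  set s := sm z0 with hs
  have hcube : 2 * s ^ 3 = 1 := by
    have := cubes (z := z0) (by linarith)
    rw [← hsc] at this
    linear_combination this
  have hs0 : s ≠ 0 := by
    intro h; rw [h] at hcube; norm_num at hcube
  have hspos : 0 < ‖s‖ ^ 2 := by positivity
  set u0 := (ω - 1) * z0 with hu0
  have hu0n : ‖u0‖ ≤ 2 := by
    rw [hu0, norm_mul]
    have : ‖ω - 1‖ ≤ 2 := (norm_sub_le _ _).trans (by rw [hωn, norm_one]; norm_num)
    nlinarith [norm_nonneg z0, norm_nonneg (ω - 1)]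
  set δ : ℝ := min (1 / 8) (‖s‖ ^ 2 / 256) with hδ
  have hδ0 : 0 < δ := by positivity
  have hδ1 : δ ≤ 1 / 8 := min_le_left _ _
  have hδ2 : δ ≤ ‖s‖ ^ 2 / 256 := min_le_right _ _
  set g : ℂ → ℂ := fun u => ω ^ 2 * sm (z0 + u) - cm (z0 + u) with hg
  have hωz : ‖ω * z0‖ ≤ 1 := by rw [norm_mul, hωn, one_mul]; exact hz0
  have hzu : z0 + u0 = ω * z0 := by rw [hu0]; ring
  have hg0 : g u0 = 0 := by
    simp only [hg, hzu, sm_rot hω, cm_rot hω, ← hsc, ← hs]
    linear_combination s * hω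
  have hglow : ∀ u, ‖u - u0‖ = δ → ‖s‖ ^ 2 * δ ≤ ‖g u‖ := by
    intro u hu
    set d := u - u0 with hd
    have hw : ‖ω * z0 + d‖ < 5 / 4 := by
      have := norm_add_le (ω * z0) d
      linarith
    have t1 := sm_taylor (z := ω * z0) (h := d) (by linarith) hw
    have t2 := cm_taylor (z := ω * z0) (h := d) (by linarith) hw
    rw [sm_rot hω, cm_rot hω, ← hsc, ← hs, hu] at t1 t2
    have e0 : z0 + u = ω * z0 + d := by rw [hd, hu0]; ring
    have e1 : 2 * ω ^ 2 * s ^ 2 * d = g u - ω ^ 2 * (sm (ω * z0 + d) - ω * s - d * s ^ 2)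
        + (cm (ω * z0 + d) - s + d * (ω * s) ^ 2) := by
      simp only [hg, e0]
      linear_combination (-s) * hω
    have n1 : ‖2 * ω ^ 2 * s ^ 2 * d‖ = 2 * ‖s‖ ^ 2 * δ := by
      simp [norm_pow, hωn, hu]
    have n2 : ‖ω ^ 2 * (sm (ω * z0 + d) - ω * s - d * s ^ 2)‖ ≤ 128 * δ ^ 2 := by
      rw [norm_mul, norm_pow, hωn]; linarith
    have n3 := norm_add_le (g u - ω ^ 2 * (sm (ω * z0 + d) - ω * s - d * s ^ 2))
      (cm (ω * z0 + d) - s + d * (ω * s) ^ 2)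
    have n4 := norm_sub_le (g u) (ω ^ 2 * (sm (ω * z0 + d) - ω * s - d * s ^ 2))
    rw [← e1, n1] at n3
    nlinarith
  set K : ℝ := 3000 * Real.exp 102 with hK
  have hK0 : 0 < K := by positivity
  set η : ℝ := min (min 1 ε) (min (1 / K) (‖s‖ ^ 2 * δ / (5 * K))) with hη
  have hη0 : 0 < η := by positivity
  obtain ⟨k, hk⟩ := exists_nat_gt (3 / η)
  have hkpos : (0 : ℝ) < k := lt_trans (by positivity) hk
  have hk0 : 0 < k := by exact_mod_cast hkpos
  have hkc : (k : ℂ) ≠ 0 := by exact_mod_cast hk0.ne'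
  have hkη : 3 / (k : ℝ) ≤ η := by
    rw [div_lt_iff₀ hη0] at hk
    rw [div_le_iff₀ hkpos]; linarith
  have hall : ∀ u, ‖u - u0‖ ≤ δ → ‖u / k‖ ≤ η ∧ (∀ j ≤ k, ‖z0 + j * (u / k)‖ < 5 / 4) ∧
      ∀ j ≤ k, ‖((step (u / k))^[j] (s, s)).1 - sm (z0 + j * (u / k))‖ ≤ K * η ∧
        ‖((step (u / k))^[j] (s, s)).2 - cm (z0 + j * (u / k))‖ ≤ K * η := by
    intro u hu
    have hun : ‖u‖ ≤ 3 := by
      have := norm_add_le (u - u0) u0
      rw [sub_add_cancel] at this; linarith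
    have hn : ‖u / k‖ = ‖u‖ / k := by simp
    have h1 : ‖u / k‖ ≤ η := by
      rw [hn]; exact (div_le_div_of_nonneg_right hun hkpos.le).trans hkη
    have h2 : ∀ j ≤ k, ‖z0 + j * (u / k)‖ < 5 / 4 := by
      intro j hj
      set t : ℝ := j / k with ht
      have ht0 : 0 ≤ t := by positivity
      have ht1 : t ≤ 1 := by rw [ht, div_le_one hkpos]; exact_mod_cast hj
      have e : z0 + j * (u / k) = ((1 - t : ℝ) : ℂ) * z0 + (t : ℂ) * (ω * z0) + (t : ℂ) * (u - u0) := by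
        rw [ht, hu0]; push_cast; field_simp; ring
      rw [e]
      have a1 := norm_add_le (((1 - t : ℝ) : ℂ) * z0 + (t : ℂ) * (ω * z0)) ((t : ℂ) * (u - u0))
      have a2 := norm_add_le (((1 - t : ℝ) : ℂ) * z0) ((t : ℂ) * (ω * z0))
      rw [norm_mul (t : ℂ), Complex.norm_real, Real.norm_eq_abs, abs_of_nonneg ht0] at a1 a2
      rw [norm_mul, Complex.norm_real, Real.norm_eq_abs, abs_of_nonneg (by linarith)] at a2
      nlinarith [norm_nonneg (u - u0), norm_nonneg z0, norm_nonneg (ω * z0)]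
    refine ⟨h1, h2, ?_⟩
    have hη1 : η ≤ 1 := (min_le_left _ _).trans (min_le_left _ _)
    have hηK : η ≤ 1 / K := (min_le_right _ _).trans (min_le_left _ _)
    have h3 : K * ‖u / k‖ ≤ K * η := mul_le_mul_of_nonneg_left h1 hK0.le
    have h4 : K * η ≤ 1 := by rw [le_div_iff₀ hK0] at hηK; linarith
    have h5 : (k : ℝ) * ‖u / k‖ ≤ 3 := by rw [hn]; field_simp; exact hun
    have := euler_err h2 (h1.trans hη1) h5 (h3.trans h4)
    rw [← hsc, ← hs] at this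
    intro j hj
    exact ⟨(this j hj).1.trans h3, (this j hj).2.trans h3⟩
  set f : ℂ → ℂ := fun u => ω ^ 2 * ((step (u / k))^[k] (s, s)).1 - ((step (u / k))^[k] (s, s)).2
    with hf
  have hfd : Differentiable ℂ f := by
    have hd : Differentiable ℂ fun u : ℂ => u / k := by fun_prop
    exact (((diff_iter (s, s) k).1.comp hd).const_mul _).sub ((diff_iter (s, s) k).2.comp hd)
  have hclose : ∀ u, ‖u - u0‖ ≤ δ → ‖f u - g u‖ ≤ 2 * (K * η) := by
    intro u hu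
    have := (hall u hu).2.2 k le_rfl
    rw [show (k : ℂ) * (u / k) = u by field_simp] at this
    have e : f u - g u = ω ^ 2 * (((step (u / k))^[k] (s, s)).1 - sm (z0 + u))
        - (((step (u / k))^[k] (s, s)).2 - cm (z0 + u)) := by simp only [hf, hg]; ring
    rw [e]
    refine (norm_sub_le _ _).trans ?_
    rw [norm_mul, norm_pow, hωn]
    linarith [this.1, this.2]
  have hηs : 5 * (K * η) ≤ ‖s‖ ^ 2 * δ := by
    have : η ≤ ‖s‖ ^ 2 * δ / (5 * K) := (min_le_right _ _).trans (min_le_right _ _)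
    rw [le_div_iff₀ (by positivity)] at this; linarith
  have hKη : 0 < K * η := by positivity
  obtain ⟨u, hu, hfu⟩ := exists_zero hfd (c := u0) (m := 3 * (K * η)) hδ0
    (fun u hu => by
      have a := hglow u hu
      have b := hclose u hu.le
      have c := norm_sub_le (f u) (f u - g u)
      rw [sub_sub_cancel] at c
      linarith)
    (by
      have b := hclose u0 (by simp [hδ0.le])
      rw [hg0, sub_zero] at b
      linarith)
  obtain ⟨h1, h2, h3⟩ := hall u hu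
  have hηK : K * η ≤ 1 := by
    have hηK : η ≤ 1 / K := (min_le_right _ _).trans (min_le_left _ _)
    rw [le_div_iff₀ hK0] at hηK; linarith
  refine ⟨s, u / k, k, hs0, ?_, h1.trans ((min_le_left _ _).trans (min_le_right _ _)), hk0, ?_, ?_⟩
  · intro h0
    have hid : step 0 = id := by funext q; simp [step]
    simp only [hf, h0, hid, Function.iterate_id, id] at hfu
    have : (ω ^ 2 - 1) * s = 0 := by linear_combination hfu
    rcases mul_eq_zero.1 this with h | h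
    · exact hω1 (by linear_combination hω - ω * h)
    · exact hs0 h
  · intro j hj
    have a := norm_add_le (((step (u / k))^[j] (s, s)).1 - sm (z0 + j * (u / k)))
      (sm (z0 + j * (u / k)))
    have b := norm_add_le (((step (u / k))^[j] (s, s)).2 - cm (z0 + j * (u / k)))
      (cm (z0 + j * (u / k)))
    rw [sub_add_cancel] at a b
    have c := h3 j hj
    constructor
    · linarith [c.1, sm_bound (h2 j hj)]
    · linarith [c.2, cm_bound (h2 j hj)]
  · simp only [hf] at hfu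
    linear_combination -hfu

end Pool.Agent.MP_f47e6d_an

end

-- part MP_f47e6d_an.Sym
section

/-!
Reversing symmetries of the Henon map `H (x, y) = (y, x + y^2)` and small symmetric cycles.
-/

set_option autoImplicit false

namespace Pool.Agent.MP_f47e6d_an

/-- The Henon map. -/
def hen (q : ℂ × ℂ) : ℂ × ℂ := (q.2, q.1 + q.2 ^ 2)

/-- Its second iterate. -/
def hen2 (q : ℂ × ℂ) : ℂ × ℂ := hen (hen q)

/-- A reversor of `hen2`. -/
def tau (ω : ℂ) (q : ℂ × ℂ) : ℂ × ℂ := (-(ω * q.2), -(ω ^ 2 * q.1))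

/-- A symmetry of `hen2`. -/
def rot (ω : ℂ) (q : ℂ × ℂ) : ℂ × ℂ := (ω * q.1, ω ^ 2 * q.2)

/-- The rescaling. -/
def sc (h : ℂ) (q : ℂ × ℂ) : ℂ × ℂ := (h * q.1, -(h * q.2))

lemma hen2_sc (h : ℂ) (q : ℂ × ℂ) : hen2 (sc h q) = sc h (step h q) := by
  simp only [hen2, hen, sc, step, Prod.mk.injEq]
  constructor <;> ring

lemma hen2_iter_sc (h : ℂ) (q : ℂ × ℂ) (j : ℕ) : hen2^[j] (sc h q) = sc h ((step h)^[j] q) := by
  induction j with
  | zero => rfl
  | succ j ih => rw [Function.iterate_succ_apply', ih, hen2_sc, Function.iterate_succ_apply']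

lemma hen_iter_two (q : ℂ × ℂ) (j : ℕ) : hen^[2 * j] q = hen2^[j] q := by
  rw [Function.iterate_mul]; rfl

section
variable {ω : ℂ} (hω : ω ^ 3 = 1)
include hω

lemma hen2_tau (q : ℂ × ℂ) : hen2 (tau ω (hen2 q)) = tau ω q := by
  simp only [hen2, hen, tau, Prod.mk.injEq]
  have e1 : -(ω * (q.2 + (q.1 + q.2 ^ 2) ^ 2)) + (-(ω ^ 2 * (q.1 + q.2 ^ 2))) ^ 2 = -(ω * q.2) := by
    linear_combination (ω * (q.1 + q.2 ^ 2) ^ 2) * hω
  refine ⟨e1, ?_⟩
  rw [e1]; ring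

lemma hen2_rot (q : ℂ × ℂ) : hen2 (rot ω q) = rot ω (hen2 q) := by
  simp only [hen2, hen, rot, Prod.mk.injEq]
  have e1 : ω * q.1 + (ω ^ 2 * q.2) ^ 2 = ω * (q.1 + q.2 ^ 2) := by
    linear_combination (ω * q.2 ^ 2) * hω
  refine ⟨e1, ?_⟩
  rw [e1]; ring

lemma iter_tau (i : ℕ) (q : ℂ × ℂ) : hen2^[i] (tau ω (hen2^[i] q)) = tau ω q := by
  induction i generalizing q with
  | zero => rfl
  | succ i ih =>
    rw [Function.iterate_succ_apply' hen2 i (tau ω _), Function.iterate_succ_apply hen2 i q, ih,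
      hen2_tau hω]

lemma iter_rot (i : ℕ) (q : ℂ × ℂ) : hen2^[i] (rot ω q) = rot ω (hen2^[i] q) := by
  induction i with
  | zero => rfl
  | succ i ih => rw [Function.iterate_succ_apply', ih, hen2_rot hω, Function.iterate_succ_apply']

lemma norm_omega : ‖ω‖ = 1 := by
  have := congrArg norm hω
  rw [norm_pow, norm_one] at this
  exact (pow_eq_one_iff_of_nonneg (norm_nonneg _) (by norm_num)).1 this

lemma norm_tau (q : ℂ × ℂ) : ‖tau ω q‖ = ‖q‖ := by
  simp [tau, Prod.norm_def, norm_omega hω, max_comm]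

lemma norm_rot (q : ℂ × ℂ) : ‖rot ω q‖ = ‖q‖ := by
  simp [rot, Prod.norm_def, norm_omega hω]

lemma rot_three (q : ℂ × ℂ) : rot ω (rot ω (rot ω q)) = q := by
  simp only [rot]
  ext
  · simp only; linear_combination q.1 * hω
  · simp only; linear_combination (q.2 * (ω ^ 3 + 1)) * hω

/-- A point of the antidiagonal that is sent by `hen2^[k]` to the fixed line of `tau` is periodic,
and its whole orbit is bounded by the bound on the first `k` steps. -/
lemma symmetric_cycle {p : ℂ × ℂ} {k : ℕ} (hk : 0 < k) (hp : p.2 = -p.1)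
    (hq : tau ω (hen2^[k] p) = hen2^[k] p) {B : ℝ} (hB : ∀ j ≤ k, ‖hen2^[j] p‖ ≤ B) :
    hen2^[6 * k] p = p ∧ ∀ n, ‖hen2^[n] p‖ ≤ B := by
  have h1 : ∀ i ≤ k, hen2^[k + i] p = tau ω (hen2^[k - i] p) := by
    intro i hi
    rw [add_comm, Function.iterate_add_apply, ← hq]
    have : hen2^[k] p = hen2^[i] (hen2^[k - i] p) := by
      rw [← Function.iterate_add_apply, Nat.add_sub_cancel' hi]
    rw [this, iter_tau hω]
  have h2 : hen2^[2 * k] p = rot ω p := by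
    rw [two_mul, h1 k le_rfl]
    simp [tau, rot, hp]
  have h3 : ∀ n, hen2^[n + 2 * k] p = rot ω (hen2^[n] p) := by
    intro n
    rw [Function.iterate_add_apply, h2, iter_rot hω]
  constructor
  · rw [show 6 * k = 0 + 2 * k + 2 * k + 2 * k by ring, h3, h3, h3, rot_three hω]; rfl
  · intro n
    induction n using Nat.strong_induction_on with
    | _ n ih =>
      by_cases a : n ≤ k
      · exact hB n a
      · by_cases b : n ≤ 2 * k
        · rw [show n = k + (n - k) by omega, h1 _ (by omega), norm_tau hω]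
          exact hB _ (by omega)
        · rw [show n = (n - 2 * k) + 2 * k by omega, h3, norm_rot hω]
          exact ih _ (by omega)

end

lemma hen_injective : Function.Injective hen := by
  intro a b h
  simp only [hen, Prod.mk.injEq] at h
  ext
  · have := h.2; rw [h.1] at this; exact add_right_cancel this
  · exact h.1

theorem small_cycles {ε : ℝ} (hε : 0 < ε) : ∃ p : ℂ × ℂ, ∃ n : ℕ, 0 < n ∧ hen^[n] p = p ∧
    ∀ k : ℕ, ‖hen^[k] p‖ < ε ∧ hen^[k] p ≠ 0 := by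
  have hprim := Complex.isPrimitiveRoot_exp 3 (by norm_num)
  set ω := Complex.exp (2 * Real.pi * Complex.I / (3 : ℕ)) with hωdef
  have hω : ω ^ 3 = 1 := hprim.pow_eq_one
  have hω1 : ω ≠ 1 := hprim.ne_one (by norm_num)
  obtain ⟨s, h, k, hs, hh, hhε, hk, hbd, hend⟩ :=
    shoot hω hω1 (ε := min (1 / 5) (ε / 20)) (by positivity)
  have hh1 : ‖h‖ ≤ 1 / 5 := hhε.trans (min_le_left _ _)
  have hh2 : ‖h‖ ≤ ε / 20 := hhε.trans (min_le_right _ _)
  have hh0 : 0 ≤ ‖h‖ := norm_nonneg _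
  set p := sc h (s, s) with hp
  have hB : ∀ j ≤ k, ‖hen2^[j] p‖ ≤ 5 * ‖h‖ := by
    intro j hj
    rw [hp, hen2_iter_sc]
    obtain ⟨a, b⟩ := hbd j hj
    simp only [sc, Prod.norm_def, norm_mul, norm_neg, max_le_iff]
    constructor <;> nlinarith
  have hq : tau ω (hen2^[k] p) = hen2^[k] p := by
    rw [hp, hen2_iter_sc]
    simp only [tau, sc, hend, Prod.mk.injEq]
    constructor
    · linear_combination (h * ((step h)^[k] (s, s)).1) * hω
    · ring
  obtain ⟨hper, hall⟩ := symmetric_cycle hω hk (by simp [hp, sc]) hq hB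
  refine ⟨p, 2 * (6 * k), by omega, by rw [hen_iter_two, hper], fun n => ⟨?_, ?_⟩⟩
  · obtain ⟨m, rfl | rfl⟩ := Nat.even_or_odd' n
    · rw [hen_iter_two]; linarith [hall m]
    · rw [Function.iterate_succ_apply', hen_iter_two]
      have a := hall m
      generalize hen2^[m] p = q at a
      have a1 : ‖q.1‖ ≤ 5 * ‖h‖ := (norm_fst_le q).trans a
      have a2 : ‖q.2‖ ≤ 5 * ‖h‖ := (norm_snd_le q).trans a
      have a3 := norm_add_le q.1 (q.2 ^ 2)
      rw [norm_pow] at a3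
      have a4 : ‖q.2‖ ^ 2 ≤ ‖q.2‖ := by nlinarith [norm_nonneg q.2]
      simp only [hen, Prod.norm_def, max_lt_iff]
      constructor <;> linarith
  · intro h0
    have hz : hen^[n] (0 : ℂ × ℂ) = 0 := Function.iterate_fixed (by simp [hen]) n
    have := (hen_injective.iterate n) (h0.trans hz.symm)
    have h1 := congrArg Prod.fst this
    simp only [hp, sc, Prod.fst_zero] at h1
    exact mul_ne_zero hh hs h1

end Pool.Agent.MP_f47e6d_an

end
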